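import Pool.Agent.X17.MQ.Merge

/-! # Merging for the `3x+d` maps near random integers: the core -/

set_option autoImplicit false

namespace Pool.Agent.X17.DW

open Finset ZMod Filter Topology
open Pool.Agent.X17.MD Pool.Agent.X17.MQ
open Pool.Agent.Y967.CM
open Pool.Agent.H499R2.CO Pool.Agent.W38.CR Pool.Agent.W38.AF

/-- the number of the odd terms among the first `t` terms -/
def oz (d : ℤ) (t : ℕ) (x : ℤ) : ℕ := ((range t).filter fun j => (Tz d)^[j] x % 2 = 1).card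

lemma oz_zero (d x : ℤ) : oz d 0 x = 0 := rfl

lemma oz_succ (d : ℤ) (t : ℕ) (x : ℤ) :
    oz d (t + 1) x = (if x % 2 = 1 then 1 else 0) + oz d t (Tz d x) := by
  unfold oz
  rw [card_filter, card_filter, Finset.sum_range_succ', add_comm]
  rfl

lemma Tz_shift {d : ℤ} (x m : ℤ) (k : ℕ) :
    Tz d (x + m * 2 ^ (k + 1)) = Tz d x + (if x % 2 = 1 then 3 * m else m) * 2 ^ k := by
  have h2 : m * (2 : ℤ) ^ (k + 1) = 2 * (m * 2 ^ k) := by rw [pow_succ]; ring
  rcases Int.emod_two_eq_zero_or_one x with h | h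
  · rw [if_neg (by omega)]
    simp only [Tz]
    rw [if_pos h, if_pos (by omega)]; omega
  · rw [if_pos h]
    simp only [Tz]
    rw [if_neg (by omega), if_neg (by omega)]
    have h3 : 3 * m * (2 : ℤ) ^ k = 3 * (m * 2 ^ k) := by ring
    rw [h3]; omega

theorem iter_add {d : ℤ} : ∀ (t : ℕ) (x m : ℤ),
    (Tz d)^[t] (x + m * 2 ^ t) = (Tz d)^[t] x + 3 ^ oz d t x * m ∧ oz d t (x + m * 2 ^ t) = oz d t x := by
  intro t
  induction t with
  | zero => intro x m; simp [oz_zero]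
  | succ t ih =>
    intro x m
    rw [Function.iterate_succ_apply, Function.iterate_succ_apply, Tz_shift, oz_succ, oz_succ, Tz_shift]
    obtain ⟨h1, h2⟩ := ih (Tz d x) (if x % 2 = 1 then 3 * m else m)
    have hpar : (x + m * 2 ^ (t + 1)) % 2 = x % 2 := by
      have : m * (2 : ℤ) ^ (t + 1) = 2 * (m * 2 ^ t) := by rw [pow_succ]; ring
      omega
    rw [h1, h2, hpar]
    refine ⟨?_, rfl⟩
    split_ifs with h
    · rw [pow_add, pow_one]; ring
    · rw [zero_add]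

lemma Tz_scale {d : ℤ} (hd : d % 2 = 1) (c : ℤ) : Tz d (d * c) = d * Tz 1 c ∧ (d * c) % 2 = c % 2 := by
  obtain ⟨e, rfl⟩ : ∃ e, d = 2 * e + 1 := ⟨d / 2, by omega⟩
  rcases Int.emod_two_eq_zero_or_one c with h | h
  · obtain ⟨f, rfl⟩ : ∃ f, c = 2 * f := ⟨c / 2, by omega⟩
    have e1 : (2 * e + 1) * (2 * f) = 2 * ((2 * e + 1) * f) := by ring
    simp only [Tz]
    rw [e1, if_pos (by omega), if_pos (by omega)]
    constructor
    · rw [Int.mul_ediv_cancel_left _ (by norm_num), Int.mul_ediv_cancel_left _ (by norm_num)]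
    · omega
  · obtain ⟨f, rfl⟩ : ∃ f, c = 2 * f + 1 := ⟨c / 2, by omega⟩
    have e1 : (2 * e + 1) * (2 * f + 1) = 2 * (2 * e * f + e + f) + 1 := by ring
    simp only [Tz]
    rw [e1, if_neg (by omega), if_neg (by omega)]
    constructor
    · have e2 : 3 * (2 * (2 * e * f + e + f) + 1) + (2 * e + 1) = 2 * ((2 * e + 1) * (3 * f + 2)) := by ring
      have e3 : 3 * (2 * f + 1) + 1 = 2 * (3 * f + 2) := by ring
      rw [e2, e3, Int.mul_ediv_cancel_left _ (by norm_num), Int.mul_ediv_cancel_left _ (by norm_num)]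
    · omega

theorem iter_scale {d : ℤ} (hd : d % 2 = 1) : ∀ (t : ℕ) (c : ℤ),
    (Tz d)^[t] (d * c) = d * (Tz 1)^[t] c ∧ oz d t (d * c) = oz 1 t c := by
  intro t
  induction t with
  | zero => intro c; simp [oz_zero]
  | succ t ih =>
    intro c
    rw [Function.iterate_succ_apply, Function.iterate_succ_apply, oz_succ, oz_succ, (Tz_scale hd c).1,
      (Tz_scale hd c).2]
    obtain ⟨h1, h2⟩ := ih (Tz 1 c)
    rw [h1, h2]
    exact ⟨rfl, rfl⟩

/-- **merging and the number of odd terms** -/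
theorem pass {d : ℤ} (hd : d % 2 = 1) {t v : ℕ} {y c m : ℤ} (hy : y = d * c + m * 2 ^ t)
    (hF : FB v (cb t c) = 0) {i : ℕ} {r : ℤ} (hA : (i, r) ∈ Qg v) :
    (Tz d)^[t] (3 ^ i * y + d * r) = (Tz d)^[t] y ∧ oz d t (3 ^ i * y + d * r) + i = oz d t y := by
  have h1 := FB_spec hF hA
  have hc2 : cb t (c + 1 * 2 ^ t) = cb t c := cb_periodic _ _ _
  have h2 := FB_spec (y := c + 1 * 2 ^ t) (by rw [hc2]; exact hF) hA
  have e1 : ev (i, r) (c + 1 * 2 ^ t) = ev (i, r) c + 3 ^ i * 2 ^ t := by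
    unfold ev; ring
  rw [e1, (iter_add t _ _).1, (iter_add t c 1).1, h1, mul_one] at h2
  have h3 : (3 : ℤ) ^ (oz 1 t (ev (i, r) c) + i) = 3 ^ oz 1 t c := by
    rw [pow_add]; linarith
  have h4 : oz 1 t (ev (i, r) c) + i = oz 1 t c := by
    have h5 : (3 : ℕ) ^ (oz 1 t (ev (i, r) c) + i) = 3 ^ oz 1 t c := by exact_mod_cast h3
    exact Nat.pow_right_injective (by norm_num) h5
  have e2 : 3 ^ i * y + d * r = d * ev (i, r) c + (3 ^ i * m) * 2 ^ t := by
    rw [hy]; unfold ev; ring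
  obtain ⟨g1, g2⟩ := iter_add (d := d) t (d * ev (i, r) c) (3 ^ i * m)
  obtain ⟨g3, g4⟩ := iter_add (d := d) t (d * c) m
  obtain ⟨g5, g6⟩ := iter_scale hd t (ev (i, r) c)
  obtain ⟨g7, g8⟩ := iter_scale hd t c
  rw [e2, g1, g2, hy, g3, g4, g5, g6, g7, g8, h1]
  refine ⟨?_, h4⟩
  rw [← h4, pow_add]; ring

/-- the probability of a bad class, after an injective map of the classes -/
theorem bad_inj {b L : ℕ} (ν : Fin L → Fin b → ℝ) (t : ℕ) {F : List Bool → ℝ} (hF : ∀ l, 0 ≤ F l)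
    (hF1 : ∀ l, F l ≠ 0 → 1 ≤ F l) (U : Finset (ZMod (2 ^ t))) (e : ZMod (2 ^ t) → ZMod (2 ^ t))
    (he : Set.InjOn e U) :
    prob ν (fun n => (n : ZMod (2 ^ t)) ∈ U ∧ F (cb t (((e (n : ZMod (2 ^ t))).val : ℕ) : ℤ)) ≠ 0) ≤
      av t F + MQ.dist ν t := by
  classical
  set Z : Finset (ZMod (2 ^ t)) := U.filter (fun z => F (cb t (((e z).val : ℕ) : ℤ)) ≠ 0) with hZ
  have h1 := prob_class_le ν t
    (fun n => (n : ZMod (2 ^ t)) ∈ U ∧ F (cb t (((e (n : ZMod (2 ^ t))).val : ℕ) : ℤ)) ≠ 0) Z (by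
    intro n
    rw [hZ, mem_filter])
  have h2 : (Z.card : ℝ) ≤ 2 ^ t * av t F := by
    have h3 : Z.card ≤ #{c ∈ range (2 ^ t) | F (cb t ((c : ℕ) : ℤ)) ≠ 0} := by
      apply Finset.card_le_card_of_injOn (fun z : ZMod (2 ^ t) => (e z).val)
      · intro z hz
        rw [hZ] at hz
        simp only [Finset.coe_filter, Set.mem_ofPred_eq] at hz
        simp only [Finset.coe_filter, Finset.mem_range, Set.mem_ofPred_eq]
        exact ⟨ZMod.val_lt _, hz.2⟩
      · intro z hz z' hz' h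
        rw [hZ] at hz hz'
        simp only [Finset.coe_filter, Set.mem_ofPred_eq] at hz hz'
        exact he (Finset.mem_coe.2 hz.1) (Finset.mem_coe.2 hz'.1) (ZMod.val_injective _ h)
    have h4 : (Z.card : ℝ) ≤ (#{c ∈ range (2 ^ t) | F (cb t ((c : ℕ) : ℤ)) ≠ 0} : ℝ) := by exact_mod_cast h3
    refine h4.trans ?_
    refine le_trans (le_of_eq ?_) (cls_count hF hF1 t)
    congr!
  have h4 : (Z.card : ℝ) / ((2 ^ t : ℕ) : ℝ) ≤ av t F := by
    push_cast
    rw [div_le_iff₀ (by positivity)]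
    linarith
  have h5 := (abs_le.1 h1).2
  linarith

/-- **the core**: a number of steps `T ≤ κ L / log L` and a window for which the bad classes are rare -/
theorem core {b : ℕ} (hbo : b % 2 = 1) (hb3 : 3 ≤ b) {c : ℝ} (hc : 0 < c) (hc1 : c ≤ 1) {κ ε : ℝ}
    (hκ : 0 < κ) (hε : 0 < ε) : ∃ L0 : ℕ, ∀ L ≥ L0, ∃ T v : ℕ, (T : ℝ) ≤ κ * (L / Real.log L) ∧
      (∀ (i : ℕ) (r : ℤ), (i : ℝ) ≤ Wd L → |(r : ℝ)| ≤ Real.exp (Wd L) → (i, r) ∈ Qg v) ∧
      ∀ (Δ : ℕ) (ν : Fin L → Fin b → ℝ), Δ % 2 = 1 → Law b Δ c ν →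
        ∀ (U : Finset (ZMod (2 ^ T))) (e : ZMod (2 ^ T) → ZMod (2 ^ T)), Set.InjOn e U →
        prob ν (fun n => (n : ZMod (2 ^ T)) ∈ U ∧ FB v (cb T (((e (n : ZMod (2 ^ T))).val : ℕ) : ℤ)) ≠ 0) ≤ ε := by
  obtain ⟨δ, C, hδ, hC, hd⟩ := dist_bd hbo hb3 hc hc1
  obtain ⟨m0, hm0⟩ := phaseG (show 0 < ε / 2 by positivity)
  set κ1 : ℝ := min κ δ with hκ1
  have hκ10 : 0 < κ1 := lt_min hκ hδ
  have hlog : Tendsto (fun L : ℕ => Real.log (L : ℝ)) atTop atTop :=
    Real.tendsto_log_atTop.comp tendsto_natCast_atTop_atTop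
  have hsmall : ∀ᶠ L : ℕ in atTop, C * Real.exp (-(δ * (Real.log L / κ1))) ≤ ε / 2 := by
    have h1 : Tendsto (fun L : ℕ => C * Real.exp (-(δ * (Real.log L / κ1)))) atTop (𝓝 (C * 0)) := by
      apply Tendsto.const_mul
      apply Real.tendsto_exp_neg_atTop_nhds_zero.comp
      apply Tendsto.const_mul_atTop hδ
      exact hlog.atTop_div_const hκ10
    rw [mul_zero] at h1
    exact h1.eventually (ge_mem_nhds (by positivity))
  obtain ⟨L0, hL0⟩ := eventually_atTop.1 ((choose_t hκ10 (max m0 1)).and (hsmall.and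
    (hlog.eventually_ge_atTop 1)))
  refine ⟨L0, fun L hL => ?_⟩
  obtain ⟨⟨⟨m, hm, hm1, hm2⟩, hWd, hup⟩, h2, h3⟩ := hL0 L hL
  obtain ⟨T, hT, hav⟩ := hm0 m ((le_max_left _ _).trans hm)
  have hlL : 0 < Real.log L := by linarith
  have hx0 : 0 ≤ (L : ℝ) / Real.log L := by positivity
  have hT0 : (T : ℝ) ≤ κ1 * Real.log (NL L) := by
    have : (T : ℝ) ≤ ((2 * (4 ^ m * m ^ 30) : ℕ) : ℝ) := by exact_mod_cast hT
    linarith
  have hT1 : (T : ℝ) ≤ κ1 * (L / Real.log L) := hT0.trans (mul_le_mul_of_nonneg_left hup hκ10.le)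
  refine ⟨T, 2 ^ (m - 3), hT1.trans (mul_le_mul_of_nonneg_right (min_le_left _ _) hx0), ?_, ?_⟩
  · intro i r hi hr
    apply kap_int _ hi hr
    push_cast
    exact hWd.trans hm2
  intro Δ ν hΔ hlaw U e he
  refine (bad_inj ν T (FB_nonneg _) (fun l => FB_one) U e he).trans ?_
  have hav' : av T (FB (2 ^ (m - 3))) ≤ ε / 2 := hav
  -- `T ≥ 1`
  rcases Nat.eq_zero_or_pos T with hT0 | hT0
  · -- then the law is trivially uniform
    subst hT0
    have hd0 : MQ.dist ν 0 = 0 := by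
      unfold MQ.dist
      apply Finset.sum_eq_zero
      intro z _
      have hz : ∀ z' : ZMod (2 ^ 0), z' = z := by
        intro z'
        have : Subsingleton (ZMod (2 ^ 0)) := by
          rw [pow_zero]; infer_instance
        exact Subsingleton.elim _ _
      have h5 := law_sum hlaw.one (N := 2 ^ 0)
      rw [Finset.sum_eq_single z (fun z' _ h => absurd (hz z') h) (fun h => absurd (mem_univ z) h)] at h5
      rw [h5]; norm_num
    rw [hd0]; linarith
  · have h5 := hd L T Δ ν hT0 (by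
      have h6 : κ1 * (L / Real.log L) ≤ δ * (L / Real.log L) :=
        mul_le_mul_of_nonneg_right (min_le_right _ _) hx0
      calc (T : ℝ) * Real.log L ≤ (δ * (L / Real.log L)) * Real.log L :=
            mul_le_mul_of_nonneg_right (hT1.trans h6) hlL.le
        _ = δ * L := by field_simp) hΔ hlaw
    have hTR : (0 : ℝ) < T := by exact_mod_cast hT0
    have h6 : C * Real.exp (-(δ * (L / T))) ≤ C * Real.exp (-(δ * (Real.log L / κ1))) := by
      apply mul_le_mul_of_nonneg_left _ hC.le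
      apply Real.exp_le_exp.2
      have h7 : Real.log L / κ1 ≤ L / T := by
        rw [div_le_div_iff₀ hκ10 hTR]
        calc Real.log L * T ≤ Real.log L * (κ1 * (L / Real.log L)) := mul_le_mul_of_nonneg_left hT1 hlL.le
          _ = L * κ1 := by field_simp
      have := mul_le_mul_of_nonneg_left h7 hδ.le
      linarith
    linarith

end Pool.Agent.X17.DW
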