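import Pool.Agent.X17.DW.A
import Pool.Agent.Y967.CM.SP

/-! # Merging for the `3x+d` maps near the values of a polynomial at random integers -/

set_option autoImplicit false

namespace Pool.Agent.X17.DW

open Finset ZMod Filter Topology Polynomial
open Pool.Agent.X17.MD Pool.Agent.X17.MQ
open Pool.Agent.Y967.CM
open Pool.Agent.H499R2.CO Pool.Agent.W38.CR Pool.Agent.W38.AF

open Classical in
/-- the values of a nonconstant polynomial are spread over the classes -/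
theorem poly_classes {f : ℤ[X]} (hf : 1 ≤ f.natDegree) {ε : ℝ} (hε : 0 < ε) : ∃ η : ℝ, 0 < η ∧
    ∀ (T : ℕ) (P : ℤ → Prop), (∀ y m : ℤ, P (y + m * 2 ^ T) ↔ P y) →
      (#{c ∈ range (2 ^ T) | P ((c : ℕ) : ℤ)} : ℝ) ≤ η * 2 ^ T →
      (#{c ∈ range (2 ^ T) | P (f.eval ((c : ℕ) : ℤ))} : ℝ) ≤ ε * 2 ^ T := by
  obtain ⟨η, hη, N0, h⟩ := (spr_id.poly hf) ε hε
  refine ⟨min η (1 / 2 ^ (N0 + 1)), lt_min hη (by positivity), fun T P hP hc => ?_⟩
  rcases Nat.lt_or_ge T N0 with hT | hT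
  · -- no class at all
    have h3 : (#{c ∈ range (2 ^ T) | P ((c : ℕ) : ℤ)} : ℝ) < 1 := by
      refine lt_of_le_of_lt hc ?_
      have h4 : (2 : ℝ) ^ T < 2 ^ (N0 + 1) := pow_lt_pow_right₀ (by norm_num) (by omega)
      calc min η (1 / 2 ^ (N0 + 1)) * 2 ^ T ≤ 1 / 2 ^ (N0 + 1) * 2 ^ T :=
            mul_le_mul_of_nonneg_right (min_le_right _ _) (by positivity)
        _ < 1 / 2 ^ (N0 + 1) * 2 ^ (N0 + 1) := mul_lt_mul_of_pos_left h4 (by positivity)
        _ = 1 := by field_simp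
    have h4 : #{c ∈ range (2 ^ T) | P ((c : ℕ) : ℤ)} = 0 := by
      have : #{c ∈ range (2 ^ T) | P ((c : ℕ) : ℤ)} < 1 := by exact_mod_cast h3
      omega
    have h5 : ∀ y : ℤ, ¬ P y := by
      intro y hy
      obtain ⟨c, hc, k, hk⟩ := exists_class T y
      rw [hk, hP] at hy
      have h6 : c ∈ ({c ∈ range (2 ^ T) | P ((c : ℕ) : ℤ)} : Finset ℕ) := mem_filter.2 ⟨hc, hy⟩
      rw [card_eq_zero] at h4
      rw [h4] at h6
      simp at h6
    have h6 : ({c ∈ range (2 ^ T) | P (f.eval ((c : ℕ) : ℤ))} : Finset ℕ) = ∅ := by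
      apply filter_eq_empty_iff.2
      intro c _; exact h5 _
    rw [h6]
    simp only [card_empty, Nat.cast_zero]
    positivity
  · have h2T : N0 ≤ 2 ^ T := hT.trans Nat.lt_two_pow_self.le
    have h1 := h (2 ^ T) h2T T (by push_cast; rw [Real.rpow_one]) P hP (by
      refine le_trans (le_of_eq ?_) (hc.trans (mul_le_mul_of_nonneg_right (min_le_left _ _) (by positivity)))
      congr!)
    refine le_trans ?_ (h1.trans (le_of_eq (by push_cast; ring)))
    have h3 : #{c ∈ range (2 ^ T) | P (f.eval ((c : ℕ) : ℤ))} ≤ #{n ∈ Icc 1 (2 ^ T) | P (f.eval ((n : ℕ) : ℤ))} := by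
      apply Finset.card_le_card_of_injOn (fun c => if c = 0 then 2 ^ T else c)
      · intro c hc
        rw [mem_coe, mem_filter, mem_range] at hc
        rw [mem_coe, mem_filter, mem_Icc]
        simp only
        split_ifs with h0
        · refine ⟨⟨Nat.one_le_two_pow, le_rfl⟩, ?_⟩
          have h4 := hc.2
          rw [h0] at h4
          obtain ⟨k', hk'⟩ := eval_add_mul f 0 1 (2 ^ T)
          have e : (((2 ^ T : ℕ) : ℕ) : ℤ) = 0 + 1 * 2 ^ T := by push_cast; ring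
          rw [e, hk', hP]
          exact_mod_cast h4
        · exact ⟨⟨by omega, by omega⟩, hc.2⟩
      · intro c hc d hd hcd
        rw [mem_coe, mem_filter, mem_range] at hc hd
        simp only at hcd
        split_ifs at hcd <;> omega
    have h4 : (#{c ∈ range (2 ^ T) | P (f.eval ((c : ℕ) : ℤ))} : ℝ) ≤
        #{n ∈ Icc 1 (2 ^ T) | P (f.eval ((n : ℕ) : ℤ))} := by exact_mod_cast h3
    refine h4.trans (le_of_eq ?_)
    congr!

open Classical in
/-- classes of residues and residues in an interval -/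
lemma card_cls (T : ℕ) (Q : ℤ → Prop) : #{z : ZMod (2 ^ T) | Q ((z.val : ℕ) : ℤ)} =
    #{c ∈ range (2 ^ T) | Q ((c : ℕ) : ℤ)} := by
  apply Finset.card_nbij' (fun z : ZMod (2 ^ T) => z.val) (fun n => (n : ZMod (2 ^ T)))
  · intro z hz
    simp only [Finset.coe_filter, Finset.mem_univ, true_and, Set.mem_ofPred_eq] at hz
    simp only [Finset.coe_filter, Finset.mem_range, Set.mem_ofPred_eq]
    exact ⟨ZMod.val_lt z, hz⟩
  · intro n hn
    simp only [Finset.coe_filter, Finset.mem_range, Set.mem_ofPred_eq] at hn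
    simp only [Finset.coe_filter, Finset.mem_univ, true_and, Set.mem_ofPred_eq]
    rw [ZMod.val_cast_of_lt hn.1]
    exact hn.2
  · intro z _; exact ZMod.natCast_zmod_val z
  · intro n hn
    simp only [Finset.coe_filter, Finset.mem_range, Set.mem_ofPred_eq] at hn
    exact ZMod.val_cast_of_lt hn.1

lemma per_congr {T : ℕ} {Q : ℤ → Prop} (hQ : ∀ y m : ℤ, Q (y + m * 2 ^ T) ↔ Q y) {x y : ℤ}
    (h : (x : ZMod (2 ^ T)) = (y : ZMod (2 ^ T))) : Q x ↔ Q y := by
  rw [ZMod.intCast_eq_intCast_iff_dvd_sub] at h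
  obtain ⟨k, hk⟩ := h
  push_cast at hk
  have : y = x + k * 2 ^ T := by linarith
  rw [this, hQ]

open Classical in
/-- shifts do not change the number of classes -/
lemma card_shift (T : ℕ) {Q : ℤ → Prop} (hQ : ∀ y m : ℤ, Q (y + m * 2 ^ T) ↔ Q y) (A : ℤ) :
    #{z : ZMod (2 ^ T) | Q (A + ((z.val : ℕ) : ℤ))} = #{z : ZMod (2 ^ T) | Q ((z.val : ℕ) : ℤ)} := by
  apply Finset.card_equiv (Equiv.addLeft (A : ZMod (2 ^ T)))
  intro z
  simp only [mem_filter, mem_univ, true_and, Equiv.coe_addLeft]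
  apply per_congr hQ
  push_cast
  rw [ZMod.natCast_zmod_val, ZMod.natCast_zmod_val]

/-- the trivial case: the law modulo one is uniform -/
lemma dist_zero {b L : ℕ} {ν : Fin L → Fin b → ℝ} (h : ∀ j, ∑ x, ν j x = 1) : MQ.dist ν 0 = 0 := by
  unfold MQ.dist
  apply Finset.sum_eq_zero
  intro z _
  have hz : ∀ z' : ZMod (2 ^ 0), z' = z := by
    intro z'
    have : Subsingleton (ZMod (2 ^ 0)) := by
      rw [pow_zero]; infer_instance
    exact Subsingleton.elim _ _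
  have h5 := law_sum h (N := 2 ^ 0)
  rw [Finset.sum_eq_single z (fun z' _ h => absurd (hz z') h) (fun h => absurd (mem_univ z) h)] at h5
  rw [h5]; norm_num

open Classical in
/-- **the core for the values of a polynomial** -/
theorem core2 {f : ℤ[X]} (hf : 1 ≤ f.natDegree) {b : ℕ} (hbo : b % 2 = 1) (hb3 : 3 ≤ b) {c : ℝ} (hc : 0 < c)
    (hc1 : c ≤ 1) {κ ε : ℝ} (hκ : 0 < κ) (hε : 0 < ε) :
    ∃ L0 : ℕ, ∀ L ≥ L0, ∃ T v : ℕ, (T : ℝ) ≤ κ * (L / Real.log L) ∧
      (∀ (i : ℕ) (r : ℤ), (i : ℝ) ≤ Wd L → |(r : ℝ)| ≤ Real.exp (Wd L) → (i, r) ∈ Qg v) ∧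
      ∀ (Δ : ℕ) (ν : Fin L → Fin b → ℝ), Δ % 2 = 1 → Law b Δ c ν → ∀ (A : ℤ) (P : ℤ → Prop),
        (∀ y m : ℤ, P (y + m * 2 ^ T) ↔ P y) →
        #{c ∈ range (2 ^ T) | P ((c : ℕ) : ℤ)} ≤ #{c ∈ range (2 ^ T) | FB v (cb T ((c : ℕ) : ℤ)) ≠ 0} →
        prob ν (fun n => P (f.eval (A + (n : ℤ)))) ≤ ε := by
  obtain ⟨δ, C, hδ, hC, hd⟩ := dist_bd hbo hb3 hc hc1
  obtain ⟨η, hη, hpoly⟩ := poly_classes hf (show 0 < ε / 2 by positivity)
  obtain ⟨m0, hm0⟩ := phaseG hη
  set κ1 : ℝ := min κ δ with hκ1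
  have hκ10 : 0 < κ1 := lt_min hκ hδ
  have hlog : Tendsto (fun L : ℕ => Real.log (L : ℝ)) atTop atTop :=
    Real.tendsto_log_atTop.comp tendsto_natCast_atTop_atTop
  have hsmall : ∀ᶠ L : ℕ in atTop, C * Real.exp (-(δ * (Real.log L / κ1))) ≤ ε / 2 := by
    have h1 : Tendsto (fun L : ℕ => C * Real.exp (-(δ * (Real.log L / κ1)))) atTop (𝓝 (C * 0)) := by
      apply Tendsto.const_mul
      apply Real.tendsto_exp_neg_atTop_nhds_zero.comp
      apply Tendsto.const_mul_atTop hδ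
      exact hlog.atTop_div_const hκ10
    rw [mul_zero] at h1
    exact h1.eventually (ge_mem_nhds (by positivity))
  obtain ⟨L0, hL0⟩ := eventually_atTop.1 ((choose_t hκ10 (max m0 1)).and (hsmall.and
    (hlog.eventually_ge_atTop 1)))
  refine ⟨L0, fun L hL => ?_⟩
  obtain ⟨⟨⟨m, hm, hm1, hm2⟩, hWd, hup⟩, h2, h3⟩ := hL0 L hL
  obtain ⟨T, hT, hav⟩ := hm0 m ((le_max_left _ _).trans hm)
  have hlL : 0 < Real.log L := by linarith
  have hx0 : 0 ≤ (L : ℝ) / Real.log L := by positivity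
  have hT0 : (T : ℝ) ≤ κ1 * Real.log (NL L) := by
    have : (T : ℝ) ≤ ((2 * (4 ^ m * m ^ 30) : ℕ) : ℝ) := by exact_mod_cast hT
    linarith
  have hT1 : (T : ℝ) ≤ κ1 * (L / Real.log L) := hT0.trans (mul_le_mul_of_nonneg_left hup hκ10.le)
  refine ⟨T, 2 ^ (m - 3), hT1.trans (mul_le_mul_of_nonneg_right (min_le_left _ _) hx0), ?_, ?_⟩
  · intro i r hi hr
    apply kap_int _ hi hr
    push_cast
    exact hWd.trans hm2
  intro Δ ν hΔ hlaw A P hP hPc
  have hav' : av T (FB (2 ^ (m - 3))) ≤ η := hav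
  -- the classes
  have hcl : (#{c ∈ range (2 ^ T) | P (f.eval ((c : ℕ) : ℤ))} : ℝ) ≤ ε / 2 * 2 ^ T := by
    apply hpoly T P hP
    have h4 : (#{c ∈ range (2 ^ T) | P ((c : ℕ) : ℤ)} : ℝ) ≤
        #{c ∈ range (2 ^ T) | FB (2 ^ (m - 3)) (cb T ((c : ℕ) : ℤ)) ≠ 0} := by exact_mod_cast hPc
    refine h4.trans ?_
    have h5 := cls_count (FB_nonneg (2 ^ (m - 3))) (fun l => FB_one) T
    calc (#{c ∈ range (2 ^ T) | FB (2 ^ (m - 3)) (cb T ((c : ℕ) : ℤ)) ≠ 0} : ℝ)
        ≤ 2 ^ T * av T (FB (2 ^ (m - 3))) := by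
          refine le_trans (le_of_eq ?_) h5
          congr!
      _ ≤ 2 ^ T * η := mul_le_mul_of_nonneg_left hav' (by positivity)
      _ = η * 2 ^ T := by ring
  have hQ : ∀ y m : ℤ, P (f.eval (y + m * 2 ^ T)) ↔ P (f.eval y) := by
    intro y m
    obtain ⟨k', hk'⟩ := eval_add_mul f y m (2 ^ T)
    rw [hk']; exact hP _ _
  set Z : Finset (ZMod (2 ^ T)) := {z : ZMod (2 ^ T) | P (f.eval (A + ((z.val : ℕ) : ℤ)))} with hZ
  have h6 := prob_class_le ν T (fun n => P (f.eval (A + (n : ℤ)))) Z (by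
    intro n
    rw [hZ, mem_filter]
    simp only [mem_univ, true_and]
    apply per_congr (T := T) (Q := fun y => P (f.eval y)) hQ
    push_cast
    rw [ZMod.natCast_zmod_val])
  have h7 : (Z.card : ℝ) / ((2 ^ T : ℕ) : ℝ) ≤ ε / 2 := by
    push_cast
    rw [div_le_iff₀ (by positivity)]
    refine le_trans (le_of_eq ?_) hcl
    rw [hZ, card_shift T (Q := fun y => P (f.eval y)) hQ, card_cls T (fun y => P (f.eval y))]
  have h8 := (abs_le.1 h6).2
  rcases Nat.eq_zero_or_pos T with hT0 | hT0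
  · subst hT0
    rw [dist_zero hlaw.one] at h8
    linarith
  · have h5 := hd L T Δ ν hT0 (by
      have h6 : κ1 * (L / Real.log L) ≤ δ * (L / Real.log L) :=
        mul_le_mul_of_nonneg_right (min_le_right _ _) hx0
      calc (T : ℝ) * Real.log L ≤ (δ * (L / Real.log L)) * Real.log L :=
            mul_le_mul_of_nonneg_right (hT1.trans h6) hlL.le
        _ = δ * L := by field_simp) hΔ hlaw
    have hTR : (0 : ℝ) < T := by exact_mod_cast hT0
    have h6 : C * Real.exp (-(δ * (L / T))) ≤ C * Real.exp (-(δ * (Real.log L / κ1))) := by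
      apply mul_le_mul_of_nonneg_left _ hC.le
      apply Real.exp_le_exp.2
      have h7 : Real.log L / κ1 ≤ L / T := by
        rw [div_le_div_iff₀ hκ10 hTR]
        calc Real.log L * T ≤ Real.log L * (κ1 * (L / Real.log L)) := mul_le_mul_of_nonneg_left hT1 hlL.le
          _ = L * κ1 := by field_simp
      have := mul_le_mul_of_nonneg_left h7 hδ.le
      linarith
    linarith

end Pool.Agent.X17.DW
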