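import Pool.Agent.X17.DW.B

/-! # Merging for the `3x+d` maps near the values of a polynomial at random integers, uniformly in `d` -/

set_option autoImplicit false

namespace Pool.Agent.X17.DW

open Finset ZMod Filter Topology Polynomial
open Pool.Agent.X17.MD Pool.Agent.X17.MQ
open Pool.Agent.Y967.CM
open Pool.Agent.H499R2.CO Pool.Agent.W38.CR Pool.Agent.W38.AF

/-- after `t` steps the orbit of `y` under the `3x+d` map has merged with the orbits of its neighbours -/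
def Near (d : ℤ) (w : ℝ) (t : ℕ) (y : ℤ) : Prop :=
  ∀ (i : ℕ) (r : ℤ), (i : ℝ) ≤ w → |(r : ℝ)| ≤ Real.exp w →
    (Tz d)^[t] (3 ^ i * y + d * r) = (Tz d)^[t] y ∧ oz d t (3 ^ i * y + d * r) + i = oz d t y

/-- the class of `y / d` is bad -/
def BadAt (T v : ℕ) (d y : ℤ) : Prop := ∃ c m : ℤ, y = d * c + m * 2 ^ T ∧ FB v (cb T c) ≠ 0

lemma badAt_y {T v : ℕ} (d y m : ℤ) : BadAt T v d (y + m * 2 ^ T) ↔ BadAt T v d y := by
  constructor
  · rintro ⟨c, k, h, hF⟩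
    exact ⟨c, k - m, by linarith, hF⟩
  · rintro ⟨c, k, h, hF⟩
    exact ⟨c, k + m, by linarith, hF⟩

lemma badAt_d {T v : ℕ} (d y m : ℤ) : BadAt T v (d + m * 2 ^ T) y ↔ BadAt T v d y := by
  constructor
  · rintro ⟨c, k, h, hF⟩
    exact ⟨c, k + m * c, by linarith, hF⟩
  · rintro ⟨c, k, h, hF⟩
    exact ⟨c, k - m * c, by linarith, hF⟩

lemma exists_quot {d : ℤ} (hd : d % 2 = 1) (T : ℕ) (y : ℤ) : ∃ c m : ℤ, y = d * c + m * 2 ^ T := by
  have h1 : IsCoprime d (2 ^ T) := by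
    apply IsCoprime.pow_right
    rw [Int.isCoprime_iff_gcd_eq_one]
    have : Odd d := Int.odd_iff.2 hd
    exact Int.isCoprime_iff_gcd_eq_one.1 (Int.isCoprime_two_right.2 this)
  obtain ⟨u, v, huv⟩ := h1
  refine ⟨u * y, v * y, ?_⟩
  linear_combination (-y) * huv

lemma near_of_not_bad {T v : ℕ} {d y : ℤ} (hd : d % 2 = 1) (h : ¬ BadAt T v d y) {w : ℝ}
    (hw : ∀ (i : ℕ) (r : ℤ), (i : ℝ) ≤ w → |(r : ℝ)| ≤ Real.exp w → (i, r) ∈ Qg v) : Near d w T y := by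
  obtain ⟨c, m, hy⟩ := exists_quot hd T y
  have hF : FB v (cb T c) = 0 := by
    by_contra hcon
    exact h ⟨c, m, hy, hcon⟩
  intro i r hi hr
  exact pass hd hy hF (hw i r hi hr)

open Classical in
lemma count_y (T v : ℕ) (d : ℤ) : #{y ∈ range (2 ^ T) | BadAt T v d ((y : ℕ) : ℤ)} ≤
    #{c ∈ range (2 ^ T) | FB v (cb T ((c : ℕ) : ℤ)) ≠ 0} := by
  have h1 : ({y ∈ range (2 ^ T) | BadAt T v d ((y : ℕ) : ℤ)} : Finset ℕ) ⊆
      ({c ∈ range (2 ^ T) | FB v (cb T ((c : ℕ) : ℤ)) ≠ 0} : Finset ℕ).image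
        (fun c : ℕ => ((d : ZMod (2 ^ T)) * (c : ZMod (2 ^ T))).val) := by
    intro y hy
    rw [mem_filter, mem_range] at hy
    obtain ⟨hy1, c, m, h, hF⟩ := hy
    obtain ⟨c', hc', k, hk⟩ := exists_class T c
    rw [mem_image]
    refine ⟨c', mem_filter.2 ⟨hc', ?_⟩, ?_⟩
    · rw [hk, cb_periodic] at hF; exact hF
    · have e : (y : ZMod (2 ^ T)) = (d : ZMod (2 ^ T)) * (c' : ZMod (2 ^ T)) := by
        have h2 := congrArg (fun z : ℤ => (z : ZMod (2 ^ T))) h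
        rw [hk] at h2
        push_cast at h2
        have h3 : (2 : ZMod (2 ^ T)) ^ T = 0 := by
          have := ZMod.natCast_self (2 ^ T)
          push_cast at this
          exact this
        rw [h3] at h2
        rw [h2]; ring
      rw [← e]
      exact ZMod.val_cast_of_lt hy1
  exact (card_le_card h1).trans card_image_le

open Classical in
lemma count_d (T v : ℕ) {y : ℤ} (hy : y % 2 = 1) : #{d ∈ range (2 ^ T) | BadAt T v ((d : ℕ) : ℤ) y} ≤
    #{c ∈ range (2 ^ T) | FB v (cb T ((c : ℕ) : ℤ)) ≠ 0} := by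
  have hyu : IsUnit (y : ZMod (2 ^ T)) := by
    rw [ZMod.coe_int_isUnit_iff_isCoprime]
    push_cast
    apply IsCoprime.pow_left
    exact Int.isCoprime_two_left.2 (Int.odd_iff.2 hy)
  have h1 : ({d ∈ range (2 ^ T) | BadAt T v ((d : ℕ) : ℤ) y} : Finset ℕ) ⊆
      ({c ∈ range (2 ^ T) | FB v (cb T ((c : ℕ) : ℤ)) ≠ 0} : Finset ℕ).image
        (fun c : ℕ => ((y : ZMod (2 ^ T)) * (c : ZMod (2 ^ T))⁻¹).val) := by
    intro d hd
    rw [mem_filter, mem_range] at hd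
    obtain ⟨hd1, c, m, h, hF⟩ := hd
    obtain ⟨c', hc', k, hk⟩ := exists_class T c
    rw [mem_image]
    refine ⟨c', mem_filter.2 ⟨hc', ?_⟩, ?_⟩
    · rw [hk, cb_periodic] at hF; exact hF
    · have e : (y : ZMod (2 ^ T)) = (d : ZMod (2 ^ T)) * (c' : ZMod (2 ^ T)) := by
        have h2 := congrArg (fun z : ℤ => (z : ZMod (2 ^ T))) h
        rw [hk] at h2
        push_cast at h2
        have h3 : (2 : ZMod (2 ^ T)) ^ T = 0 := by
          have := ZMod.natCast_self (2 ^ T)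
          push_cast at this
          exact this
        rw [h3] at h2
        rw [h2]; ring
      have hcu : IsUnit (c' : ZMod (2 ^ T)) := by
        rw [e] at hyu
        exact isUnit_of_mul_isUnit_right hyu
      have e2 : (y : ZMod (2 ^ T)) * (c' : ZMod (2 ^ T))⁻¹ = (d : ZMod (2 ^ T)) := by
        rw [e, mul_assoc, ZMod.mul_inv_of_unit _ hcu, mul_one]
      rw [e2]
      exact ZMod.val_cast_of_lt hd1
  exact (card_le_card h1).trans card_image_le

/-- **merging near the values of `f`, uniformly in `d`, and for random `d`** -/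
theorem near {f : ℤ[X]} (hf : 1 ≤ f.natDegree) {b : ℕ} (hbo : b % 2 = 1) (hb3 : 3 ≤ b) {c : ℝ} (hc : 0 < c)
    (hc1 : c ≤ 1) {κ ε : ℝ} (hκ : 0 < κ) (hε : 0 < ε) :
    ∃ L0 : ℕ, ∀ L ≥ L0, ∃ T : ℕ, (T : ℝ) ≤ κ * (L / Real.log L) ∧
      ∀ (Δ : ℕ) (ν : Fin L → Fin b → ℝ), Δ % 2 = 1 → Law b Δ c ν → ∀ A : ℤ,
        (∀ d : ℤ, d % 2 = 1 → prob ν (fun n => ¬ Near d (Wd L) T (f.eval (A + (n : ℤ)))) ≤ ε) ∧
        (∀ y : ℤ, y % 2 = 1 → prob ν (fun n => f.eval (A + (n : ℤ)) % 2 = 1 ∧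
          ¬ Near (f.eval (A + (n : ℤ))) (Wd L) T y) ≤ ε) := by
  classical
  obtain ⟨L0, h⟩ := core2 hf hbo hb3 hc hc1 hκ hε
  refine ⟨L0, fun L hL => ?_⟩
  obtain ⟨T, v, hT, hw, h1⟩ := h L hL
  refine ⟨T, hT, fun Δ ν hΔ hlaw A => ⟨fun d hd => ?_, fun y hy => ?_⟩⟩
  · refine (prob_mono hlaw.nonneg ?_).trans (h1 Δ ν hΔ hlaw A (fun y => BadAt T v d y) (fun y m => badAt_y d y m)
      (count_y T v d))
    intro n hn
    by_contra hcon
    exact hn (near_of_not_bad hd hcon hw)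
  · refine (prob_mono hlaw.nonneg ?_).trans (h1 Δ ν hΔ hlaw A (fun d => BadAt T v d y) (fun d m => badAt_d d y m)
      (count_d T v hy))
    rintro n ⟨hn1, hn⟩
    by_contra hcon
    exact hn (near_of_not_bad hn1 hcon hw)

end Pool.Agent.X17.DW
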